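import Mathlib

/-!
# Wild Belyi maps of global function fields
-/

set_option autoImplicit false

open Polynomial

namespace Pool.Agent.TH862.AL

variable (p : ℕ) [hp : Fact p.Prime]

/-- `K` is a global function field of characteristic `p`: a finite separable extension of a rational
function field `𝔽_p(x)`. -/
def IsFunctionField (K : Type) [Field K] [Algebra (ZMod p) K] : Prop :=
  ∃ x : K, Transcendental (ZMod p) x ∧
    FiniteDimensional (IntermediateField.adjoin (ZMod p) {x}) K ∧
    Algebra.IsSeparable (IntermediateField.adjoin (ZMod p) {x}) K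

variable {p} {K : Type} [Field K] [Algebra (ZMod p) K]

/-- Every element of `K` is a quotient of elements of the subring `R`. -/
def HasFractions (R : Subalgebra (ZMod p) K) : Prop := ∀ z : K, ∃ a ∈ R, ∃ b ∈ R, z = a / b

/-- The ring `R` is unramified over its subring `𝔽_p[t]`: every derivation of `R`, with values in any
`R`-module, which vanishes at `t` is zero. -/
def IsUnramifiedOver (R : Subalgebra (ZMod p) K) (t : K) : Prop :=
  ∀ (M : Type) [AddCommGroup M] [Module R M] (d : Derivation ℤ R M),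
    (∀ s : R, (s : K) = t → d s = 0) → d = 0

/-- The subring `R` of `K` is a finite etale extension of its subring `𝔽_p[t]`, with field of
fractions `K`. -/
structure IsEtaleOver (R : Subalgebra (ZMod p) K) (t : K) : Prop where
  mem : t ∈ R
  integral : ∀ b ∈ R, IsIntegral (Algebra.adjoin (ZMod p) {t}) b
  fractions : HasFractions R
  unramified : IsUnramifiedOver R t

open scoped IntermediateField.algebraAdjoinAdjoin in
/-- A generator of the function field. -/
lemma exists_gen {x : K}
    (hf : FiniteDimensional (IntermediateField.adjoin (ZMod p) {x}) K)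
    (hs : Algebra.IsSeparable (IntermediateField.adjoin (ZMod p) {x}) K) :
    ∃ (α : K) (μ : (Algebra.adjoin (ZMod p) {x})[X]), IsIntegral (Algebra.adjoin (ZMod p) {x}) α ∧
      aeval α μ = 0 ∧ aeval α (derivative μ) ≠ 0 ∧
        IntermediateField.adjoin (ZMod p) {x, α} = ⊤ := by
  obtain ⟨β, hβ⟩ := Field.exists_primitive_element (IntermediateField.adjoin (ZMod p) {x}) K
  have h1 : IsAlgebraic (Algebra.adjoin (ZMod p) {x}) β := by
    rw [IsFractionRing.isAlgebraic_iff (Algebra.adjoin (ZMod p) {x})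
      (IntermediateField.adjoin (ZMod p) {x}) K]
    exact Algebra.IsAlgebraic.isAlgebraic β
  obtain ⟨c, hc, hcβ⟩ := h1.exists_integral_multiple
  obtain ⟨α, hα⟩ : ∃ α, α = c • β := ⟨_, rfl⟩
  rw [← hα] at hcβ
  have hα' : α = (c : K) * β := by rw [hα]; rfl
  have hcK : (c : K) ≠ 0 := fun h => hc (Subtype.ext h)
  have htop : IntermediateField.adjoin (ZMod p) {x, α} = ⊤ := by
    have h2 := IntermediateField.adjoin_adjoin_left (ZMod p) {x} {β}
    rw [hβ] at h2
    rw [eq_top_iff]
    have h3 : (⊤ : IntermediateField (ZMod p) K) ≤ IntermediateField.adjoin (ZMod p)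
        ({x} ∪ {β}) := by
      rw [← h2]
      intro z _
      exact IntermediateField.mem_top
    refine h3.trans ?_
    rw [IntermediateField.adjoin_le_iff]
    have hxm : x ∈ IntermediateField.adjoin (ZMod p) {x, α} :=
      IntermediateField.subset_adjoin _ _ (Set.mem_insert _ _)
    have hαm : α ∈ IntermediateField.adjoin (ZMod p) {x, α} :=
      IntermediateField.subset_adjoin _ _ (Set.mem_insert_of_mem _ rfl)
    have hcm : (c : K) ∈ IntermediateField.adjoin (ZMod p) {x, α} := by
      have h4 : (c : K) ∈ Algebra.adjoin (ZMod p) {x} := c.2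
      have h5 : Algebra.adjoin (ZMod p) {x} ≤
          (IntermediateField.adjoin (ZMod p) {x, α}).toSubalgebra := by
        rw [Algebra.adjoin_le_iff, Set.singleton_subset_iff]
        exact hxm
      exact h5 h4
    rintro z (hz | hz)
    · rw [Set.mem_singleton_iff.mp hz]
      exact hxm
    · rw [Set.mem_singleton_iff.mp hz]
      have h6 : β = α / (c : K) := by rw [hα', mul_div_cancel_left₀ _ hcK]
      rw [h6]
      exact div_mem hαm hcm
  have hsep := Algebra.IsSeparable.isSeparable (IntermediateField.adjoin (ZMod p) {x}) α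
  have hm0 := minpoly.aeval (IntermediateField.adjoin (ZMod p) {x}) α
  have hm1 : aeval α (derivative (minpoly (IntermediateField.adjoin (ZMod p) {x}) α)) ≠ 0 :=
    Separable.aeval_derivative_ne_zero hsep hm0
  obtain ⟨b, hb, hbm⟩ := IsLocalization.integerNormalization_spec
    (nonZeroDivisors (Algebra.adjoin (ZMod p) {x}))
    (minpoly (IntermediateField.adjoin (ZMod p) {x}) α)
  refine ⟨α, IsLocalization.integerNormalization (nonZeroDivisors (Algebra.adjoin (ZMod p) {x}))
    (minpoly (IntermediateField.adjoin (ZMod p) {x}) α), hcβ,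
    IsLocalization.integerNormalization_aeval_eq_zero _ _ hm0, ?_, htop⟩
  have hbK : (b : K) ≠ 0 := fun h => nonZeroDivisors.ne_zero hb (Subtype.ext h)
  rw [← aeval_map_algebraMap (IntermediateField.adjoin (ZMod p) {x}), ← derivative_map, hbm,
    derivative_smul, ← algebraMap_smul (IntermediateField.adjoin (ZMod p) {x}) b, map_smul]
  intro h
  rw [Algebra.smul_def] at h
  rcases mul_eq_zero.mp h with h | h
  · exact hbK h
  · exact hm1 h

/-- A nonzero element of `R = 𝔽_p[x, α]` divides `D(x)` for some monic polynomial `D`. -/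
lemma exists_multiple {x α h : K}
    (hα : IsIntegral (Algebra.adjoin (ZMod p) {x}) α)
    (hh : h ∈ Algebra.adjoin (ZMod p) {x, α}) (h0 : h ≠ 0) :
    ∃ (D : (ZMod p)[X]) (c : K), D.Monic ∧ c ∈ Algebra.adjoin (ZMod p) {x, α} ∧
      aeval x D = h * c ∧ aeval x D ≠ 0 := by
  have e : Algebra.adjoin (ZMod p) {x, α} = Subalgebra.restrictScalars (ZMod p)
      (Algebra.adjoin (Algebra.adjoin (ZMod p) {x}) {α}) := by
    rw [← Algebra.adjoin_union_eq_adjoin_adjoin]
    rfl
  have hint : ∀ b ∈ Algebra.adjoin (Algebra.adjoin (ZMod p) {x}) {α},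
      IsIntegral (Algebra.adjoin (ZMod p) {x}) b := by
    have h1 : Algebra.adjoin (Algebra.adjoin (ZMod p) {x}) {α} ≤
        integralClosure (Algebra.adjoin (ZMod p) {x}) K := by
      rw [Algebra.adjoin_le_iff, Set.singleton_subset_iff]
      exact hα
    exact fun b hb => h1 hb
  rw [e, Subalgebra.mem_restrictScalars] at hh
  obtain ⟨H, hH⟩ : ∃ H : Algebra.adjoin (Algebra.adjoin (ZMod p) {x}) {α}, (H : K) = h :=
    ⟨⟨h, hh⟩, rfl⟩
  have hH0 : H ≠ 0 := by
    rintro rfl
    exact h0 hH.symm
  have hHi : IsIntegral (Algebra.adjoin (ZMod p) {x}) H := by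
    have h2 := hint h hh
    rw [← hH] at h2
    exact (isIntegral_algHom_iff (Algebra.adjoin (Algebra.adjoin (ZMod p) {x}) {α}).val
      Subtype.val_injective).mp h2
  have h3 := Ideal.comap_ne_bot_of_integral_mem (I := Ideal.span {H}) hH0
    (Ideal.mem_span_singleton_self H) hHi
  obtain ⟨a, ha, ha0⟩ := Submodule.exists_mem_ne_zero_of_ne_bot h3
  rw [Ideal.mem_comap, Ideal.mem_span_singleton] at ha
  obtain ⟨C, hC⟩ := ha
  have h4 : (a : K) = h * (C : K) := by
    have h5 := congrArg (Subtype.val) hC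
    rw [← hH]
    exact h5
  obtain ⟨D, hD⟩ : ∃ D : (ZMod p)[X], aeval x D = (a : K) := by
    have h6 : ∀ z ∈ Algebra.adjoin (ZMod p) {x}, ∃ D : (ZMod p)[X], aeval x D = z := by
      intro z hz
      rw [Algebra.adjoin_singleton_eq_range_aeval] at hz
      exact hz
    exact h6 a a.2
  have haK : (a : K) ≠ 0 := fun h7 => ha0 (Subtype.ext h7)
  have hD0 : D ≠ 0 := by
    rintro rfl
    rw [map_zero] at hD
    exact haK hD.symm
  have hl : D.leadingCoeff ≠ 0 := leadingCoeff_ne_zero.mpr hD0
  refine ⟨D * Polynomial.C (D.leadingCoeff)⁻¹, (C : K) * algebraMap (ZMod p) K (D.leadingCoeff)⁻¹,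
    monic_mul_leadingCoeff_inv hD0, ?_, ?_, ?_⟩
  · rw [e, Subalgebra.mem_restrictScalars]
    refine Subalgebra.mul_mem _ C.2 ?_
    rw [← Subalgebra.mem_restrictScalars (ZMod p)]
    exact Subalgebra.algebraMap_mem _ _
  · rw [map_mul, aeval_C, hD, h4, mul_assoc]
  · rw [map_mul, aeval_C, hD]
    refine mul_ne_zero haK ?_
    rw [Ne, map_eq_zero]
    exact inv_ne_zero hl

/-- `x` is integral over `𝔽_p[t]`, `t = x + x^p + D(x)^{-p}`. -/
lemma integral_x {x t : K} {D : (ZMod p)[X]} (hD : D.Monic) (hD0 : aeval x D ≠ 0)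
    (ht : t = x + x ^ p + ((aeval x D)⁻¹) ^ p) :
    IsIntegral (Algebra.adjoin (ZMod p) {t}) x := by
  obtain ⟨T, hT⟩ : ∃ T : Algebra.adjoin (ZMod p) {t}, (T : K) = t :=
    ⟨⟨t, Algebra.self_mem_adjoin_singleton _ _⟩, rfl⟩
  have hp2 := hp.out.two_le
  have m1 : (X ^ p + (X - C T) : (Algebra.adjoin (ZMod p) {t})[X]).Monic := by
    apply monic_X_pow_add
    rw [degree_X_sub_C]
    exact_mod_cast hp2
  have m2 : ((D.map (algebraMap (ZMod p) (Algebra.adjoin (ZMod p) {t}))) ^ p).Monic :=
    (hD.map _).pow p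
  have n1 : (X ^ p + (X - C T) : (Algebra.adjoin (ZMod p) {t})[X]).natDegree = p := by
    rw [natDegree_add_eq_left_of_natDegree_lt, natDegree_X_pow]
    rw [natDegree_X_sub_C, natDegree_X_pow]
    omega
  have m3 : ((X ^ p + (X - C T)) * (D.map (algebraMap (ZMod p)
      (Algebra.adjoin (ZMod p) {t}))) ^ p + 1).Monic := by
    refine (m1.mul m2).add_of_left ?_
    rw [degree_one, ← natDegree_pos_iff_degree_pos, m1.natDegree_mul m2, n1]
    omega
  refine ⟨_, m3, ?_⟩
  rw [← aeval_def, map_add, map_mul, map_pow, aeval_map_algebraMap, map_add, map_pow, map_sub,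
    aeval_X, aeval_C, map_one]
  have e1 : algebraMap (Algebra.adjoin (ZMod p) {t}) K T = t := hT
  rw [e1, ht]
  have e2 : ((aeval x D)⁻¹) ^ p * (aeval x D) ^ p = 1 := by
    rw [← mul_pow, inv_mul_cancel₀ hD0, one_pow]
  linear_combination -e2

/-- **Wild Belyi maps.** Outside the zeros of a given function, the curve is a finite etale cover of
the affine line. -/
theorem exists_etale {x α f : K} (hx : Transcendental (ZMod p) x)
    {μ : (Algebra.adjoin (ZMod p) {x})[X]} (hα : IsIntegral (Algebra.adjoin (ZMod p) {x}) α)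
    (hμ0 : aeval α μ = 0) (hμ1 : aeval α (derivative μ) ≠ 0)
    (htop : IntermediateField.adjoin (ZMod p) {x, α} = ⊤)
    (hf : f ∈ Algebra.adjoin (ZMod p) {x, α}) (hf0 : f ≠ 0) :
    ∃ (t : K) (R : Subalgebra (ZMod p) K), Transcendental (ZMod p) t ∧
      Algebra.adjoin (ZMod p) {x, α} ≤ R ∧ f⁻¹ ∈ R ∧ IsEtaleOver R t := by
  obtain ⟨g, hg⟩ : ∃ g, g = aeval α (derivative μ) := ⟨_, rfl⟩
  have hg0 : g ≠ 0 := hg ▸ hμ1
  have hgm : g ∈ Algebra.adjoin (ZMod p) {x, α} := by
    have e : Algebra.adjoin (ZMod p) {x, α} = Subalgebra.restrictScalars (ZMod p)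
        (Algebra.adjoin (Algebra.adjoin (ZMod p) {x}) {α}) := by
      rw [← Algebra.adjoin_union_eq_adjoin_adjoin]
      rfl
    rw [e, Subalgebra.mem_restrictScalars, hg]
    exact aeval_mem_adjoin_singleton _ _
  obtain ⟨D, c, hD, hc, hDc, hD0⟩ := exists_multiple hα (Subalgebra.mul_mem _ hgm hf)
    (mul_ne_zero hg0 hf0)
  obtain ⟨y, hy⟩ : ∃ y, y = (aeval x D)⁻¹ := ⟨_, rfl⟩
  have hyD : aeval x D * y = 1 := by rw [hy, mul_inv_cancel₀ hD0]
  obtain ⟨t, ht⟩ : ∃ t, t = x + x ^ p + y ^ p := ⟨_, rfl⟩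
  obtain ⟨R, hR⟩ : ∃ R : Subalgebra (ZMod p) K, R = Algebra.adjoin (ZMod p) {x, α, y} := ⟨_, rfl⟩
  have hxR : x ∈ R := hR ▸ Algebra.subset_adjoin (by simp)
  have hαR : α ∈ R := hR ▸ Algebra.subset_adjoin (by simp)
  have hyR : y ∈ R := hR ▸ Algebra.subset_adjoin (by simp)
  have hle : Algebra.adjoin (ZMod p) {x, α} ≤ R := by
    rw [Algebra.adjoin_le_iff]
    rintro z (rfl | hz)
    · exact hxR
    · rw [Set.mem_singleton_iff.mp hz]; exact hαR
  have hfi : f⁻¹ = g * c * y := by
    rw [eq_comm, ← mul_eq_one_iff_eq_inv₀ hf0]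
    rw [← hyD, hDc]
    ring
  have hgi : g * (f * c * y) = 1 := by
    rw [← hyD, hDc]
    ring
  -- integrality
  have hxt : IsIntegral (Algebra.adjoin (ZMod p) {t}) x := integral_x hD hD0 (by rw [ht, hy])
  have htt : t ∈ Subalgebra.restrictScalars (ZMod p)
      (integralClosure (Algebra.adjoin (ZMod p) {t}) K) := by
    rw [Subalgebra.mem_restrictScalars]
    have h1 := Subalgebra.algebraMap_mem (integralClosure (Algebra.adjoin (ZMod p) {t}) K)
      ⟨t, Algebra.self_mem_adjoin_singleton _ _⟩
    exact h1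
  have hxS : x ∈ Subalgebra.restrictScalars (ZMod p)
      (integralClosure (Algebra.adjoin (ZMod p) {t}) K) := hxt
  have hyS : y ∈ Subalgebra.restrictScalars (ZMod p)
      (integralClosure (Algebra.adjoin (ZMod p) {t}) K) := by
    have h1 : y ^ p ∈ Subalgebra.restrictScalars (ZMod p)
        (integralClosure (Algebra.adjoin (ZMod p) {t}) K) := by
      have e : y ^ p = t - x - x ^ p := by rw [ht]; ring
      rw [e]
      exact Subalgebra.sub_mem _ (Subalgebra.sub_mem _ htt hxS) (Subalgebra.pow_mem _ hxS p)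
    exact IsIntegral.of_pow hp.out.pos h1
  have hαS : α ∈ Subalgebra.restrictScalars (ZMod p)
      (integralClosure (Algebra.adjoin (ZMod p) {t}) K) := by
    have h1 : Algebra.adjoin (ZMod p) {x} ≤ Subalgebra.restrictScalars (ZMod p)
        (integralClosure (Algebra.adjoin (ZMod p) {t}) K) := by
      rw [Algebra.adjoin_le_iff, Set.singleton_subset_iff]
      exact hxS
    have h2 : IsIntegral (integralClosure (Algebra.adjoin (ZMod p) {t}) K) α :=
      IsIntegral.map_of_comp_eq (R := Algebra.adjoin (ZMod p) {x}) (S := K)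
        (T := integralClosure (Algebra.adjoin (ZMod p) {t}) K) (U := K)
        (Subalgebra.inclusion h1).toRingHom (RingHom.id K) rfl hα
    exact isIntegral_trans (R := Algebra.adjoin (ZMod p) {t}) α h2
  have hRS : R ≤ Subalgebra.restrictScalars (ZMod p)
      (integralClosure (Algebra.adjoin (ZMod p) {t}) K) := by
    rw [hR, Algebra.adjoin_le_iff]
    rintro z (rfl | rfl | hz)
    · exact hxS
    · exact hαS
    · rw [Set.mem_singleton_iff.mp hz]; exact hyS
  refine ⟨t, R, ?_, hle, ?_, ?_, fun b hb => hRS hb, ?_, ?_⟩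
  · -- transcendence
    intro hta
    apply hx
    have h1 : Algebra.adjoin (ZMod p) {t} ≤ integralClosure (ZMod p) K := by
      rw [Algebra.adjoin_le_iff, Set.singleton_subset_iff]
      exact isAlgebraic_iff_isIntegral.mp hta
    have h2 : Algebra.IsIntegral (ZMod p) (Algebra.adjoin (ZMod p) {t}) := by
      refine ⟨fun b => ?_⟩
      have h3 : IsIntegral (ZMod p) (b : K) := h1 b.2
      exact (isIntegral_algHom_iff (Algebra.adjoin (ZMod p) {t}).val
        Subtype.val_injective).mp h3
    exact isAlgebraic_iff_isIntegral.mpr (isIntegral_trans (R := ZMod p) x hxt)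
  · rw [hfi]
    exact Subalgebra.mul_mem _ (Subalgebra.mul_mem _ (hle hgm) (hle hc)) hyR
  · rw [ht]
    exact Subalgebra.add_mem _ (Subalgebra.add_mem _ hxR (Subalgebra.pow_mem _ hxR p))
      (Subalgebra.pow_mem _ hyR p)
  · intro z
    have h1 : z ∈ IntermediateField.adjoin (ZMod p) {x, α} := by
      rw [htop]
      exact IntermediateField.mem_top
    rw [IntermediateField.mem_adjoin_iff_div] at h1
    obtain ⟨a, ha, b, hb, hz⟩ := h1
    exact ⟨a, hle ha, b, hle hb, hz⟩
  · -- unramified
    intro M _ _ d hd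
    have hpR : (p : R) = 0 := by
      rw [← map_natCast (algebraMap (ZMod p) R), ZMod.natCast_self, map_zero]
    have hpm : ∀ m : M, p • m = 0 := by
      intro m
      rw [← Nat.cast_smul_eq_nsmul R, hpR, zero_smul]
    let W : Subalgebra (ZMod p) R :=
      { carrier := {b | d b = 0}
        mul_mem' := by
          intro a b ha hb
          change d (a * b) = 0
          rw [d.leibniz, show d a = 0 from ha, show d b = 0 from hb, smul_zero, smul_zero,
            add_zero]
        add_mem' := by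
          intro a b ha hb
          change d (a + b) = 0
          rw [map_add, show d a = 0 from ha, show d b = 0 from hb, add_zero]
        algebraMap_mem' := by
          intro a
          change d (algebraMap (ZMod p) R a) = 0
          rw [← ZMod.natCast_zmod_val a, map_natCast]
          exact d.map_natCast _ }
    have hW : ∀ b : R, b ∈ W ↔ d b = 0 := fun b => Iff.rfl
    obtain ⟨xR, hxR'⟩ : ∃ xR : R, (xR : K) = x := ⟨⟨x, hxR⟩, rfl⟩
    obtain ⟨αR, hαR'⟩ : ∃ αR : R, (αR : K) = α := ⟨⟨α, hαR⟩, rfl⟩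
    obtain ⟨yR, hyR'⟩ : ∃ yR : R, (yR : K) = y := ⟨⟨y, hyR⟩, rfl⟩
    have hdx : d xR = 0 := by
      have h1 := hd (xR + xR ^ p + yR ^ p) (by
        rw [Subalgebra.coe_add, Subalgebra.coe_add, Subalgebra.coe_pow, Subalgebra.coe_pow,
          hxR', hyR', ht])
      rw [map_add, map_add, d.leibniz_pow, d.leibniz_pow, hpm, hpm, add_zero, add_zero] at h1
      exact h1
    have hA : ∀ b : R, (b : K) ∈ Algebra.adjoin (ZMod p) {x} → d b = 0 := by
      intro b hb
      have h1 : Algebra.adjoin (ZMod p) {x} ≤ W.map R.val := by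
        rw [Algebra.adjoin_le_iff, Set.singleton_subset_iff]
        exact ⟨xR, hdx, hxR'⟩
      obtain ⟨b', hb', hbb⟩ := h1 hb
      have h2 : b' = b := Subtype.ext hbb
      rw [← h2]
      exact hb'
    have hAR : Algebra.adjoin (ZMod p) {x} ≤ R := by
      rw [Algebra.adjoin_le_iff, Set.singleton_subset_iff]
      exact hxR
    obtain ⟨φ, hφ⟩ : ∃ φ : Algebra.adjoin (ZMod p) {x} →+* R, ∀ b, (φ b : K) = b :=
      ⟨(Subalgebra.inclusion hAR).toRingHom, fun b => rfl⟩
    have hdφ : ∀ b, d (φ b) = 0 := fun b => hA _ (by rw [hφ]; exact b.2)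
    have hder : ∀ q : (Algebra.adjoin (ZMod p) {x})[X], d (eval αR (q.map φ)) =
        eval αR ((derivative q).map φ) • d αR := by
      intro q
      induction q using Polynomial.induction_on' with
      | add q r hq hr =>
        rw [Polynomial.map_add, eval_add, map_add, hq, hr, derivative_add, Polynomial.map_add,
          eval_add, add_smul]
      | monomial n a =>
        rw [Polynomial.map_monomial, eval_monomial, d.leibniz, hdφ, smul_zero, add_zero,
          d.leibniz_pow, derivative_monomial, Polynomial.map_monomial, eval_monomial, map_mul,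
          map_natCast, ← Nat.cast_smul_eq_nsmul R, smul_smul, smul_smul]
    have hev : ∀ q : (Algebra.adjoin (ZMod p) {x})[X],
        ((eval αR (q.map φ) : R) : K) = aeval α q := by
      intro q
      have h1 : ((eval αR (q.map φ) : R) : K) = R.val (eval αR (q.map φ)) := rfl
      rw [h1, eval_map, ← AlgHom.coe_toRingHom, hom_eval₂, aeval_def]
      have h2 : (R.val : R →+* K).comp φ = algebraMap (Algebra.adjoin (ZMod p) {x}) K :=
        RingHom.ext fun b => hφ b
      rw [h2]
      exact congrArg (fun z => eval₂ (algebraMap (Algebra.adjoin (ZMod p) {x}) K) z q) hαR'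
    have hdα : d αR = 0 := by
      have h1 := hder μ
      have h2 : eval αR (μ.map φ) = 0 := Subtype.ext (by rw [hev, hμ0]; rfl)
      rw [h2, map_zero] at h1
      have h3 : ∃ u : R, u * eval αR ((derivative μ).map φ) = 1 := by
        refine ⟨⟨f * c * y, Subalgebra.mul_mem _ (Subalgebra.mul_mem _ (hle hf) (hle hc)) hyR⟩,
          Subtype.ext ?_⟩
        rw [Subalgebra.coe_mul, hev, ← hg, Subalgebra.coe_one, mul_comm]
        exact hgi
      obtain ⟨u, hu⟩ := h3
      rw [← one_smul R (d αR), ← hu, mul_smul, ← h1, smul_zero]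
    have hdy : d yR = 0 := by
      obtain ⟨DR, hDR⟩ : ∃ DR : R, (DR : K) = aeval x D := by
        have h1 : aeval x D ∈ Algebra.adjoin (ZMod p) {x} := aeval_mem_adjoin_singleton _ _
        exact ⟨⟨_, hAR h1⟩, rfl⟩
      have h2 : d DR = 0 := hA DR (by rw [hDR]; exact aeval_mem_adjoin_singleton _ _)
      have h3 : yR * DR = 1 := Subtype.ext (by
        rw [Subalgebra.coe_mul, hyR', hDR, mul_comm, hyD]; rfl)
      rw [d.leibniz_of_mul_eq_one h3, h2, smul_zero]
    have hfin : R ≤ W.map R.val := by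
      have h1 : Algebra.adjoin (ZMod p) {x, α, y} ≤ W.map R.val := by
        rw [Algebra.adjoin_le_iff]
        rintro z (rfl | rfl | hz)
        · exact ⟨xR, hdx, hxR'⟩
        · exact ⟨αR, hdα, hαR'⟩
        · rw [Set.mem_singleton_iff.mp hz]; exact ⟨yR, hdy, hyR'⟩
      rwa [← hR] at h1
    ext b
    obtain ⟨b', hb', hbb⟩ := hfin b.2
    have h2 : b' = b := Subtype.ext hbb
    rw [← h2]
    exact hb'

end Pool.Agent.TH862.AL
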