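import Pool.Agent.TH862.AL.Belyi

/-!
# Abelian varieties over global function fields: formal properties
-/

set_option autoImplicit false

open Polynomial

namespace Pool.Agent.TH862.AL

/-- Data attached to the abelian varieties over the fields `K` of characteristic `p`. -/
structure AVData (p : ℕ) where
  /-- the abelian varieties over `K` -/
  Av : (K : Type) → [Field K] → [Algebra (ZMod p) K] → Type
  /-- the abelian variety `A` over `K` extends to an abelian scheme over the subring `R` of `K` -/
  Good : {K : Type} → [Field K] → [Algebra (ZMod p) K] → Av K → Subalgebra (ZMod p) K → Prop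
  /-- the Tate-Shafarevich group of `A` over the global function field `K` is finite -/
  ShaFinite : {K : Type} → [Field K] → [Algebra (ZMod p) K] → Av K → Prop
  /-- `A` has a principal polarization (over `K`) -/
  Principal : {K : Type} → [Field K] → [Algebra (ZMod p) K] → Av K → Prop

variable {p : ℕ} [hp : Fact p.Prime]

/-- An abelian scheme over `R ⊆ K` may be restricted to a larger subring `R'`. -/
def HasRestriction (T : AVData p) : Prop :=
  ∀ (K : Type) [Field K] [Algebra (ZMod p) K] (A : T.Av K) (R R' : Subalgebra (ZMod p) K),
    R ≤ R' → T.Good A R → T.Good A R'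

/-- Good reduction almost everywhere: if `R` is a finitely generated subring of the function field `K`
with field of fractions `K`, then `A` extends to an abelian scheme over `R[1/f]` for some nonzero
`f ∈ R`. -/
def HasGenericGood (T : AVData p) : Prop :=
  ∀ (K : Type) [Field K] [Algebra (ZMod p) K], IsFunctionField p K → ∀ (A : T.Av K)
    (R : Subalgebra (ZMod p) K), R.FG → HasFractions R →
      ∃ f ∈ R, f ≠ 0 ∧ T.Good A (R ⊔ Algebra.adjoin (ZMod p) {f⁻¹})

/-- Weil restriction: if `R ⊆ K` is finite etale over `𝔽_p[t]`, with field of fractions `K`, and `A`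
extends to an abelian scheme over `R`, then there is an abelian variety `B` over `𝔽_p(t)` (the Weil
restriction of `A`) which extends to an abelian scheme over `𝔽_p[t]` and has the same
Tate-Shafarevich group as `A`. -/
def HasWeilRestriction (T : AVData p) : Prop :=
  ∀ (K : Type) [Field K] [Algebra (ZMod p) K], IsFunctionField p K → ∀ (A : T.Av K) (t : K)
    (R : Subalgebra (ZMod p) K), Transcendental (ZMod p) t → IsEtaleOver R t → T.Good A R →
      ∃ B : T.Av (IntermediateField.adjoin (ZMod p) {t}),
        T.Good B (Algebra.adjoin (ZMod p) {IntermediateField.AdjoinSimple.gen (ZMod p) t}) ∧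
          (T.ShaFinite B → T.ShaFinite A)

/-- Zarhin's trick: `(A × A^)^4` has a principal polarization, it extends to an abelian scheme over
`R` if `A` does, and `A` is one of its factors. -/
def HasZarhin (T : AVData p) : Prop :=
  ∀ (K : Type) [Field K] [Algebra (ZMod p) K], IsFunctionField p K → ∀ (A : T.Av K)
    (R : Subalgebra (ZMod p) K), T.Good A R →
      ∃ B : T.Av K, T.Principal B ∧ T.Good B R ∧ (T.ShaFinite B → T.ShaFinite A)

/-- The known facts on abelian varieties which are used. -/
structure IsAVTheory (T : AVData p) : Prop where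
  restriction : HasRestriction T
  generic : HasGenericGood T
  weil : HasWeilRestriction T
  zarhin : HasZarhin T

/-- `F = 𝔽_p(t)` is the rational function field. -/
def IsRational (p : ℕ) {F : Type} [Field F] [Algebra (ZMod p) F] (t : F) : Prop :=
  Transcendental (ZMod p) t ∧ ∀ z : F, ∃ P Q : (ZMod p)[X], z = aeval t P / aeval t Q

/-- The Tate-Shafarevich groups of all abelian varieties over all global function fields of
characteristic `p` are finite. -/
def AllShaFinite (T : AVData p) : Prop :=
  ∀ (K : Type) [Field K] [Algebra (ZMod p) K], IsFunctionField p K → ∀ A : T.Av K, T.ShaFinite A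

/-- The Tate-Shafarevich groups over `𝔽_p(t)` of the principally polarized abelian varieties over
`𝔽_p(t)` which extend to abelian schemes over the affine line `Spec 𝔽_p[t]` are finite. -/
def AffineLineShaFinite (T : AVData p) : Prop :=
  ∀ (F : Type) [Field F] [Algebra (ZMod p) F] (t : F), IsRational p t → ∀ B : T.Av F,
    T.Principal B → T.Good B (Algebra.adjoin (ZMod p) {t}) → T.ShaFinite B

/-- The rational function field is a function field. -/
lemma IsRational.isFunctionField {F : Type} [Field F] [Algebra (ZMod p) F] {t : F}
    (ht : IsRational p t) : IsFunctionField p F := by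
  refine ⟨t, ht.1, ?_⟩
  have h1 : IntermediateField.adjoin (ZMod p) {t} = ⊤ := by
    rw [eq_top_iff]
    intro z _
    rw [IntermediateField.mem_adjoin_simple_iff]
    exact ht.2 z
  have h2 : ∀ E : IntermediateField (ZMod p) F, E = ⊤ →
      FiniteDimensional E F ∧ Algebra.IsSeparable E F := by
    rintro _ rfl
    have hs : Function.Surjective (algebraMap (⊤ : IntermediateField (ZMod p) F) F) :=
      fun z => ⟨⟨z, IntermediateField.mem_top⟩, rfl⟩
    constructor
    · exact Module.Finite.of_surjective (Algebra.linearMap (⊤ : IntermediateField (ZMod p) F) F) hs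
    · refine ⟨fun z => ?_⟩
      obtain ⟨z', rfl⟩ := hs z
      exact isSeparable_algebraMap z'
  exact h2 _ h1

/-- The generator of `𝔽_p(t)`. -/
lemma isRational_gen {K : Type} [Field K] [Algebra (ZMod p) K] {t : K}
    (ht : Transcendental (ZMod p) t) :
    IsRational p (IntermediateField.AdjoinSimple.gen (ZMod p) t) := by
  constructor
  · intro h
    apply ht
    exact IsAlgebraic.algHom (IntermediateField.val (IntermediateField.adjoin (ZMod p) {t})) h
  · intro z
    obtain ⟨P, Q, hz⟩ := (IntermediateField.mem_adjoin_simple_iff (ZMod p) (z : K)).mp z.2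
    refine ⟨P, Q, Subtype.ext ?_⟩
    have h1 : ∀ P : (ZMod p)[X], ((aeval (IntermediateField.AdjoinSimple.gen (ZMod p) t) P :
        IntermediateField.adjoin (ZMod p) {t}) : K) = aeval t P := by
      intro P
      exact (aeval_algHom_apply (IntermediateField.val (IntermediateField.adjoin (ZMod p) {t}))
        (IntermediateField.AdjoinSimple.gen (ZMod p) t) P).symm
    rw [IntermediateField.coe_div, h1, h1, hz]

/-- **Theorem.** -/
theorem affineLine_suffices {T : AVData p} (hT : IsAVTheory T) :
    AffineLineShaFinite T ↔ AllShaFinite T := by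
  constructor
  · intro h K _ _ hK A
    obtain ⟨x, hx, hf, hs⟩ := hK
    obtain ⟨α, μ, hα, hμ0, hμ1, htop⟩ := exists_gen hf hs
    have hfr : HasFractions (Algebra.adjoin (ZMod p) {x, α}) := by
      intro z
      have h1 : z ∈ IntermediateField.adjoin (ZMod p) {x, α} := by
        rw [htop]
        exact IntermediateField.mem_top
      rw [IntermediateField.mem_adjoin_iff_div] at h1
      obtain ⟨a, ha, b, hb, hz⟩ := h1
      exact ⟨a, ha, b, hb, hz⟩
    have hFG : (Algebra.adjoin (ZMod p) {x, α}).FG :=
      Subalgebra.fg_def.mpr ⟨{x, α}, Set.toFinite _, rfl⟩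
    have hK : IsFunctionField p K := ⟨x, hx, hf, hs⟩
    obtain ⟨f, hfm, hf0, hgood⟩ := hT.generic K hK A _ hFG hfr
    obtain ⟨t, R, ht, hle, hfR, hR⟩ := exists_etale hx hα hμ0 hμ1 htop hfm hf0
    have hgood' : T.Good A R := by
      refine hT.restriction K A _ R (sup_le hle ?_) hgood
      rw [Algebra.adjoin_le_iff, Set.singleton_subset_iff]
      exact hfR
    obtain ⟨B, hB, hBA⟩ := hT.weil K hK A t R ht hR hgood'
    have hF := isRational_gen ht
    obtain ⟨B', hB1, hB2, hB3⟩ := hT.zarhin _ hF.isFunctionField B _ hB
    exact hBA (hB3 (h _ _ hF B' hB1 hB2))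
  · intro h F _ _ t ht B _ _
    exact h F ht.isFunctionField B

end Pool.Agent.TH862.AL
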