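import Pool.Agent.TH862.AL.Defs

/-!
# The Tate conjecture for divisors and abelian schemes over the affine line
-/

set_option autoImplicit false

namespace Pool.Agent.TH862.AL

/-- Data attached to the abelian varieties over the fields of characteristic `p` and to the smooth
projective varieties over the finite fields of characteristic `p`. -/
structure TateData (p : ℕ) extends AVData p where
  /-- the smooth projective varieties over finite fields of characteristic `p` -/
  Var : Type
  /-- `Y` is a (geometrically connected) surface -/
  IsSurface : Var → Prop
  /-- the Tate conjecture for the divisors on `Y`, in both forms of the problem, for all primes `ℓ`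
  different from `p` -/
  TateDivisors : Var → Prop

variable {p : ℕ} [hp : Fact p.Prime]

/-- The Tate conjecture for divisors follows from the case of surfaces (de Jong, Morrow). -/
def HasReductionToSurfaces (T : TateData p) : Prop :=
  (∀ S : T.Var, T.IsSurface S → T.TateDivisors S) → ∀ Y : T.Var, T.TateDivisors Y

/-- Artin, Tate, Milne: for every surface `S` there are a global function field `K` and an abelian
variety `J` over `K` (the Jacobian of the generic fibre of a pencil on `S`), such that the Tate
conjecture holds for the divisors on `S` if the Tate-Shafarevich group of `J` is finite. -/
def HasPencils (T : TateData p) : Prop :=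
  ∀ S : T.Var, T.IsSurface S → ∃ (K : Type) (_ : Field K) (_ : Algebra (ZMod p) K) (J : T.Av K),
    IsFunctionField p K ∧ (T.ShaFinite J → T.TateDivisors S)

/-- Every abelian variety `A` over a global function field is a factor, up to isogeny, of the
Jacobian of a curve, the generic fibre of a surface `S`; if the Tate conjecture holds for the
divisors on `S`, then the Tate-Shafarevich group of `A` is finite. -/
def HasSurfaces (T : TateData p) : Prop :=
  ∀ (K : Type) [Field K] [Algebra (ZMod p) K], IsFunctionField p K → ∀ A : T.Av K,
    ∃ S : T.Var, T.IsSurface S ∧ (T.TateDivisors S → T.ShaFinite A)

/-- The known facts which are used. -/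
structure IsTateTheory (T : TateData p) : Prop extends IsAVTheory T.toAVData where
  surfaces : HasReductionToSurfaces T
  pencils : HasPencils T
  factors : HasSurfaces T

/-- The Tate conjecture for divisors over the finite fields of characteristic `p`. -/
def TateConjecture (T : TateData p) : Prop := ∀ Y : T.Var, T.TateDivisors Y

/-- **Theorem.** -/
theorem tate_iff_affineLine {T : TateData p} (hT : IsTateTheory T) :
    TateConjecture T ↔ AffineLineShaFinite T.toAVData := by
  rw [affineLine_suffices hT.toIsAVTheory]
  constructor
  · intro h K _ _ hK A
    obtain ⟨S, _, hA⟩ := hT.factors K hK A
    exact hA (h S)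
  · intro h
    refine hT.surfaces fun S hS => ?_
    obtain ⟨K, i1, i2, J, hK, hJ⟩ := hT.pencils S hS
    exact hJ (h K hK J)

end Pool.Agent.TH862.AL
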